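import Mathlib

/-!
# Sign functions with small correlations on a finite group: prescribed signs
-/

set_option autoImplicit false

namespace Pool.Agent.K6.H54.Pal

open Finset

section core

variable {G : Type*} [Group G] [Fintype G]

/-- All correlations of the sign function `ε` of order at most `r`, along sets without pairs
`a`, `a c`, are at most `Δ`. -/
def Corr (ε : G → ℤˣ) (c : G) (r : ℕ) (Δ : ℝ) : Prop :=
  ∀ U : Finset G, U.Nonempty → U.card ≤ r → (∀ a ∈ U, a * c ∉ U) →
    |∑ g : G, ∏ a ∈ U, ((ε (g * a) : ℤ) : ℝ)| ≤ Δ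

theorem unit_cast_or (x : ℤˣ) : ((x : ℤ) : ℝ) = 1 ∨ ((x : ℤ) : ℝ) = -1 := by
  rcases Int.units_eq_one_or x with h | h <;> simp [h]

theorem core {ε : G → ℤˣ} {c : G} {R : ℕ} {Δ : ℝ} (hΔ : 0 ≤ Δ) (hC : Corr ε c R Δ)
    (hc : c * c = 1) (hc1 : c ≠ 1) (S : Finset G) (hS : ∀ a ∈ S, a * c ∉ S) {κ : Type*} (J : Finset κ)
    (b : κ → G) (hb : ∀ j ∈ J, b j ∉ S ∧ b j * c ∉ S) (hR : S.card ≤ R)
    (hR' : J.Nonempty → S.card + 1 ≤ R)
    (hlt : (2 : ℝ) ^ S.card * (J.card + 1) * Δ < Fintype.card G) :
    ∃ g : G, (∀ a ∈ S, ε (g * a) = 1) ∧ 0 ≤ ∑ j ∈ J, ((ε (g * b j) : ℤ)) := by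
  classical
  by_contra hcon
  push Not at hcon
  set x : G → G → ℝ := fun g a => ((ε (g * a) : ℤ) : ℝ) with hx
  set F : G → ℝ := fun g => (∏ a ∈ S, (1 + x g a)) * (1 + ∑ j ∈ J, x g (b j)) with hF
  have hFle : ∀ g, F g ≤ 0 := by
    intro g
    by_cases h : ∀ a ∈ S, ε (g * a) = 1
    · have h1 := hcon g h
      have h2 : (∑ j ∈ J, x g (b j)) ≤ -1 := by
        have h3 : (∑ j ∈ J, ((ε (g * b j) : ℤ))) ≤ -1 := by omega
        have h4 : ((∑ j ∈ J, ((ε (g * b j) : ℤ)) : ℤ) : ℝ) ≤ ((-1 : ℤ) : ℝ) := by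
          exact_mod_cast h3
        push_cast at h4
        exact h4
      have h5 : 0 ≤ ∏ a ∈ S, (1 + x g a) := by
        apply Finset.prod_nonneg
        intro a ha
        rcases unit_cast_or (ε (g * a)) with h | h <;> rw [hx] <;> simp only [h] <;> norm_num
      exact mul_nonpos_of_nonneg_of_nonpos h5 (by linarith)
    · push Not at h
      obtain ⟨a, ha, h1⟩ := h
      have h2 : x g a = -1 := by
        rcases Int.units_eq_one_or (ε (g * a)) with h | h
        · exact absurd h h1
        · rw [hx]; simp [h]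
      have h3 : ∏ a ∈ S, (1 + x g a) = 0 := Finset.prod_eq_zero ha (by rw [h2]; norm_num)
      rw [hF]
      simp only [h3, zero_mul, le_refl]
  have hsum : ∑ g, F g ≤ 0 := Finset.sum_nonpos fun g _ => hFle g
  set D : Finset G → ℝ := fun U => ∑ g : G, ∏ a ∈ U, x g a with hD
  have hexp : ∑ g, F g = ∑ U ∈ S.powerset, (D U + ∑ j ∈ J, D (insert (b j) U)) := by
    have h1 : ∀ g, F g = ∑ U ∈ S.powerset, (∏ a ∈ U, x g a + ∑ j ∈ J, ∏ a ∈ insert (b j) U, x g a) := by
      intro g
      rw [hF]
      simp only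
      rw [Finset.prod_one_add, Finset.sum_mul]
      refine Finset.sum_congr rfl fun U hU => ?_
      rw [mul_add, mul_one, Finset.mul_sum]
      congr 1
      refine Finset.sum_congr rfl fun j hj => ?_
      rw [Finset.prod_insert, mul_comm]
      intro h
      exact (hb j hj).1 (Finset.mem_powerset.1 hU h)
    simp_rw [h1]
    rw [Finset.sum_comm]
    refine Finset.sum_congr rfl fun U _ => ?_
    rw [Finset.sum_add_distrib, Finset.sum_comm]
  have hD1 : ∀ U ∈ S.powerset, (if U = ∅ then (Fintype.card G : ℝ) else 0) - Δ ≤ D U := by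
    intro U hU
    by_cases h : U = ∅
    · subst h
      simp only [if_true]
      have : D ∅ = Fintype.card G := by
        rw [hD]
        simp
      rw [this]
      linarith
    · rw [if_neg h]
      have h1 := hC U (Finset.nonempty_iff_ne_empty.2 h)
        ((Finset.card_le_card (Finset.mem_powerset.1 hU)).trans hR)
        (fun a ha h2 => hS a (Finset.mem_powerset.1 hU ha) (Finset.mem_powerset.1 hU h2))
      have h2 := (abs_le.1 h1).1
      rw [hD]
      simp only
      linarith
  have hD2 : ∀ U ∈ S.powerset, ∀ j ∈ J, -Δ ≤ D (insert (b j) U) := by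
    intro U hU j hj
    have hUS := Finset.mem_powerset.1 hU
    have h1 := hC (insert (b j) U) (Finset.insert_nonempty _ _)
      ((Finset.card_insert_le _ _).trans
        ((Nat.succ_le_succ (Finset.card_le_card hUS)).trans (hR' ⟨j, hj⟩)))
      (by
        intro a ha h2
        rw [Finset.mem_insert] at ha h2
        rcases ha with rfl | ha
        · rcases h2 with h2 | h2
          · exact hc1 (by simpa using h2)
          · exact (hb j hj).2 (hUS h2)
        · rcases h2 with h2 | h2
          · apply (hb j hj).2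
            rw [← h2, mul_assoc, hc, mul_one]
            exact hUS ha
          · exact hS a (hUS ha) (hUS h2))
    have h2 := (abs_le.1 h1).1
    rw [hD]
    simp only
    linarith
  have hlow : (Fintype.card G : ℝ) - 2 ^ S.card * (J.card + 1) * Δ ≤ ∑ g, F g := by
    rw [hexp]
    have h1 : ∑ U ∈ S.powerset, (((if U = ∅ then (Fintype.card G : ℝ) else 0) - Δ) +
        ∑ j ∈ J, (-Δ)) ≤ ∑ U ∈ S.powerset, (D U + ∑ j ∈ J, D (insert (b j) U)) := by
      refine Finset.sum_le_sum fun U hU => add_le_add (hD1 U hU) ?_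
      exact Finset.sum_le_sum fun j hj => hD2 U hU j hj
    refine le_trans (le_of_eq ?_) h1
    rw [Finset.sum_add_distrib, Finset.sum_sub_distrib, Finset.sum_ite_eq' S.powerset ∅]
    simp only [Finset.empty_mem_powerset, if_true, Finset.sum_const, Finset.card_powerset,
      nsmul_eq_mul]
    push_cast
    ring
  linarith

end core

end Pool.Agent.K6.H54.Pal
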