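import Mathlib
import Pool.Agent.W546.GHC.Defs
import Pool.Agent.X311.CmDefs
import Pool.Agent.Helper475.ExistsRingequivPow
import Pool.Agent.TH170.LV.Direct
import Pool.Agent.K6.H54.Pal.Core

/-!
# CM types of a Galois CM field from sign functions on the Galois group
-/

set_option autoImplicit false

namespace Pool.Agent.K6.H54.Pal

open NumberField Pool.Agent.H204R3.CM Pool.Agent.W546.GHC Pool.Agent.X311.CmY
  Pool.Agent.TH170.LV

noncomputable section

section one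

variable (E : Type) [Field E] [NumberField E] [IsCMField E]

/-- complex conjugation, as an element of the Galois group over `ℚ` -/
def conjGal : E ≃ₐ[ℚ] E := (IsCMField.complexConj E).restrictScalars ℚ

variable {E}

theorem conjGal_apply (φ : E →+* ℂ) (x : E) :
    φ (conjGal E x) = starRingEnd ℂ (φ x) :=
  IsCMField.complexEmbedding_complexConj E φ x

theorem conjGal_mul_self : conjGal E * conjGal E = 1 := by
  ext x
  exact IsCMField.complexConj_apply_apply E x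

theorem conjGal_ne_one : conjGal E ≠ 1 := by
  intro h
  apply IsCMField.complexConj_ne_one E
  ext x
  exact congrArg (fun f : E ≃ₐ[ℚ] E => f x) h

variable (φ₀ : E →+* ℂ)

/-- the embedding `φ₀ ∘ σ` -/
def emb (σ : E ≃ₐ[ℚ] E) : E →+* ℂ := φ₀.comp (σ : E →+* E)

omit [IsCMField E] in
theorem emb_inj {σ τ : E ≃ₐ[ℚ] E} (h : emb φ₀ σ = emb φ₀ τ) : σ = τ := by
  ext x
  apply φ₀.injective
  exact congrArg (fun f : E →+* ℂ => f x) h

omit [IsCMField E] in
theorem exists_gal [IsGalois ℚ E] (φ : E →+* ℂ) : ∃ σ : E ≃ₐ[ℚ] E, φ = emb φ₀ σ := by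
  obtain ⟨σ, hσ⟩ := ComplexEmbedding.exists_comp_symm_eq_of_comp_eq (k := ℚ) φ₀ φ
    (Subsingleton.elim _ _)
  exact ⟨σ.symm, hσ.symm⟩

theorem conj_emb (σ : E ≃ₐ[ℚ] E) :
    ComplexEmbedding.conjugate (emb φ₀ σ) = emb φ₀ (σ * conjGal E) := by
  ext x
  exact (conjGal_apply (emb φ₀ σ) x).symm

/-- the set of the embeddings `φ₀ ∘ σ` with `ε (σ) = 1` -/
def typeOf (ε : (E ≃ₐ[ℚ] E) → ℤˣ) : Set (E →+* ℂ) :=
  {φ | ∃ σ : E ≃ₐ[ℚ] E, φ = φ₀.comp (σ : E →+* E) ∧ ε σ = 1}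

omit [IsCMField E] in
theorem mem_typeOf {ε : (E ≃ₐ[ℚ] E) → ℤˣ} {σ : E ≃ₐ[ℚ] E} :
    emb φ₀ σ ∈ typeOf φ₀ ε ↔ ε σ = 1 := by
  constructor
  · rintro ⟨τ, h, hτ⟩
    rw [emb_inj φ₀ h]
    exact hτ
  · intro h
    exact ⟨σ, rfl, h⟩

theorem neg_eq_one_iff (x : ℤˣ) : -x = 1 ↔ ¬ x = 1 := by
  rcases Int.units_eq_one_or x with h | h <;> subst h <;> decide

theorem isCMType_typeOf [IsGalois ℚ E] {ε : (E ≃ₐ[ℚ] E) → ℤˣ}
    (hε : ∀ σ, ε (σ * conjGal E) = - ε σ) : IsCMType (typeOf φ₀ ε) := by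
  intro φ
  obtain ⟨σ, rfl⟩ := exists_gal φ₀ φ
  rw [conj_emb, mem_typeOf, mem_typeOf, hε, neg_eq_one_iff, not_not]

end one

/-- For any embeddings `φ i`, `ψ i` of the fields `E i` some automorphism of `ℂ` over `K` maps all
`φ i` to `ψ i`. For Galois extensions this says that the `E i` are linearly disjoint, and that their
composite field is linearly disjoint from `K`. -/
def Independent (K : Subfield ℂ) {ι : Type} (E : ι → Type) [∀ i, Field (E i)] : Prop :=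
  ∀ φ ψ : ∀ i, E i →+* ℂ, ∃ τ : ℂ ≃+* ℂ, Fixes K τ ∧ ∀ i, (τ : ℂ →+* ℂ).comp (φ i) = ψ i

theorem fixes_bot (τ : ℂ ≃+* ℂ) : Fixes ⊥ τ := by
  intro x hx
  exact (bot_le : (⊥ : Subfield ℂ) ≤ (τ : ℂ →+* ℂ).eqLocusField (RingHom.id ℂ)) hx

/-- one field is always independent -/
theorem independent_unit (E : Type) [Field E] [NumberField E] :
    Independent ⊥ (fun _ : Unit => E) := by
  intro φ ψ
  have hcard : Cardinal.mk E ≤ Cardinal.aleph0 := by
    have : Countable E := by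
      have h := Algebra.IsAlgebraic.cardinalMk_le_max ℚ E
      have h2 : Cardinal.mk E ≤ Cardinal.aleph0 := by simpa using h
      exact Cardinal.mk_le_aleph0_iff.1 h2
    exact Cardinal.mk_le_aleph0
  obtain ⟨σ, hσ⟩ := H475.exists_ringEquiv_pow_aux2 hcard (φ ()) (ψ ())
  refine ⟨σ, fixes_bot σ, ?_⟩
  rintro ⟨⟩
  ext x
  exact hσ x

end

end Pool.Agent.K6.H54.Pal
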