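import Mathlib
import Pool.Agent.H341R2.WeilSharp
import Pool.Agent.K6.H54.Pal.Core

/-!
# Correlations of the Paley sign functions
-/

set_option autoImplicit false

namespace Pool.Agent.K6.H54.Pal

open Finset Polynomial

noncomputable section

/-- the sign `1` on squares (including zero) and `-1` on non-squares -/
def sgn {F : Type*} [Field F] (x : F) : ℤˣ := by
  classical
  exact if IsSquare x then 1 else -1

section weil

variable {F : Type} [Field F] [Fintype F]

theorem sgn_cast [DecidableEq F] {x : F} (hx : x ≠ 0) :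
    ((sgn x : ℤˣ) : ℤ) = quadraticChar F x := by
  unfold sgn
  by_cases h : IsSquare x
  · rw [if_pos h, (quadraticChar_one_iff_isSquare hx).2 h]
    rfl
  · rw [if_neg h, quadraticChar_neg_one_iff_not_isSquare.2 h]
    rfl

omit [Fintype F] in
theorem abs_sgn {x : F} : |((sgn x : ℤˣ) : ℝ)| = 1 := by
  rcases unit_cast_or (sgn x) with h | h <;> rw [h] <;> simp

omit [Fintype F] in
theorem not_sq_of_simple_root {f : F[X]} {a : F} (h0 : f.eval a = 0)
    (h1 : (derivative f).eval a ≠ 0) (c : F) (h : F[X]) : f ≠ C c * h ^ 2 := by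
  intro hf
  have hc : c ≠ 0 := by
    rintro rfl
    rw [C_0, zero_mul] at hf
    rw [hf] at h1
    simp at h1
  have hh : h.eval a = 0 := by
    rw [hf] at h0
    simp only [eval_mul, eval_C, eval_pow] at h0
    rcases mul_eq_zero.1 h0 with h2 | h2
    · exact absurd h2 hc
    · exact pow_eq_zero_iff (two_ne_zero) |>.1 h2
  apply h1
  rw [hf]
  simp only [derivative_mul, derivative_C, derivative_pow, eval_mul, eval_C, eval_pow,
    zero_mul, zero_add, hh]
  simp

/-- the linear polynomial of a pair -/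
def lin (v : F × F) : F[X] := C v.1 * X + C v.2

theorem prod_not_sq {V : Finset (F × F)} (hne : V.Nonempty) (h1 : ∀ v ∈ V, v.1 ≠ 0)
    (hd : ∀ v ∈ V, ∀ w ∈ V, v ≠ w → v.1 * w.2 ≠ w.1 * v.2) (c : F) (h : F[X]) :
    ∏ v ∈ V, lin v ≠ C c * h ^ 2 := by
  classical
  obtain ⟨v, hv⟩ := hne
  have hroot : (lin v).eval (-v.2 / v.1) = 0 := by
    unfold lin
    simp only [eval_add, eval_mul, eval_C, eval_X]
    field_simp [h1 v hv]
    ring
  apply not_sq_of_simple_root (a := -v.2 / v.1)
  · rw [← Finset.mul_prod_erase V lin hv, eval_mul, hroot, zero_mul]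
  · rw [← Finset.mul_prod_erase V lin hv, derivative_mul, eval_add, eval_mul, eval_mul, hroot,
      zero_mul, add_zero]
    apply mul_ne_zero
    · unfold lin
      simp only [derivative_add, derivative_mul, derivative_C, zero_mul, derivative_X, mul_one,
        zero_add, add_zero, eval_C]
      exact h1 v hv
    · rw [eval_prod, Finset.prod_ne_zero_iff]
      intro w hw
      rw [Finset.mem_erase] at hw
      unfold lin
      simp only [eval_add, eval_mul, eval_C, eval_X]
      intro h2
      apply hd v hv w hw.2 (Ne.symm hw.1)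
      have hv1 := h1 v hv
      field_simp at h2
      linear_combination h2

/-- Weil's bound for a product of different linear polynomials -/
theorem weil_lin [DecidableEq F] (hF : ringChar F ≠ 2) {V : Finset (F × F)} (hne : V.Nonempty)
    (h1 : ∀ v ∈ V, v.1 ≠ 0) (hd : ∀ v ∈ V, ∀ w ∈ V, v ≠ w → v.1 * w.2 ≠ w.1 * v.2) :
    |∑ x : F, ∏ v ∈ V, (quadraticChar F (v.1 * x + v.2) : ℝ)| ≤
      ((V.card : ℝ) - 1) * Real.sqrt (Fintype.card F) := by
  have hdeg : (∏ v ∈ V, lin v).natDegree = V.card := by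
    rw [natDegree_prod]
    · rw [Finset.card_eq_sum_ones]
      refine Finset.sum_congr rfl fun v hv => ?_
      exact natDegree_linear (h1 v hv)
    · intro v hv h
      have := natDegree_linear (b := v.2) (h1 v hv)
      change (lin v).natDegree = 1 at this
      rw [h] at this
      simp at this
  have h2 := Pool.Agent.H341R2.Sharp.weil_sharp hF (∏ v ∈ V, lin v)
    (by rw [hdeg]; exact Finset.card_pos.2 hne) (prod_not_sq hne h1 hd)
  rw [hdeg] at h2
  refine le_trans (le_of_eq ?_) h2
  congr 1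
  refine Finset.sum_congr rfl fun x _ => ?_
  rw [eval_prod, map_prod]
  push_cast
  refine Finset.prod_congr rfl fun v _ => ?_
  unfold lin
  simp

theorem abs_prod_le {κ : Type*} (s : Finset κ) (f : κ → ℝ) (h : ∀ i ∈ s, |f i| ≤ 1) :
    |∏ i ∈ s, f i| ≤ 1 := by
  rw [Finset.abs_prod]
  exact Finset.prod_le_one (fun i _ => abs_nonneg _) h

/-- the same with the sign function -/
theorem sgn_lin [DecidableEq F] (hF : ringChar F ≠ 2) {V : Finset (F × F)} (hne : V.Nonempty)
    (h1 : ∀ v ∈ V, v.1 ≠ 0) (hd : ∀ v ∈ V, ∀ w ∈ V, v ≠ w → v.1 * w.2 ≠ w.1 * v.2) :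
    |∑ x : F, ∏ v ∈ V, ((sgn (v.1 * x + v.2) : ℤˣ) : ℝ)| ≤
      ((V.card : ℝ) - 1) * Real.sqrt (Fintype.card F) + V.card := by
  have h2 := weil_lin hF hne h1 hd
  set Z : Finset F := V.image fun v => -v.2 / v.1 with hZ
  have h3 : |∑ x : F, (∏ v ∈ V, ((sgn (v.1 * x + v.2) : ℤˣ) : ℝ) -
      ∏ v ∈ V, (quadraticChar F (v.1 * x + v.2) : ℝ))| ≤ V.card := by
    have h4 : ∑ x : F, (∏ v ∈ V, ((sgn (v.1 * x + v.2) : ℤˣ) : ℝ) -
        ∏ v ∈ V, (quadraticChar F (v.1 * x + v.2) : ℝ)) =
        ∑ x ∈ Z, (∏ v ∈ V, ((sgn (v.1 * x + v.2) : ℤˣ) : ℝ) -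
        ∏ v ∈ V, (quadraticChar F (v.1 * x + v.2) : ℝ)) := by
      symm
      apply Finset.sum_subset (Finset.subset_univ _)
      intro x _ hx
      rw [sub_eq_zero]
      refine Finset.prod_congr rfl fun v hv => ?_
      have hne0 : v.1 * x + v.2 ≠ 0 := by
        intro h
        apply hx
        rw [hZ, Finset.mem_image]
        refine ⟨v, hv, ?_⟩
        have := h1 v hv
        field_simp
        linear_combination -h
      have := sgn_cast hne0
      exact_mod_cast this
    rw [h4]
    refine (Finset.abs_sum_le_sum_abs _ _).trans ?_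
    have h5 : ∀ x ∈ Z, |∏ v ∈ V, ((sgn (v.1 * x + v.2) : ℤˣ) : ℝ) -
        ∏ v ∈ V, (quadraticChar F (v.1 * x + v.2) : ℝ)| ≤ 1 := by
      intro x hx
      rw [hZ, Finset.mem_image] at hx
      obtain ⟨v, hv, rfl⟩ := hx
      have h6 : ∏ w ∈ V, (quadraticChar F (w.1 * (-v.2 / v.1) + w.2) : ℝ) = 0 := by
        apply Finset.prod_eq_zero hv
        have : v.1 * (-v.2 / v.1) + v.2 = 0 := by
          have := h1 v hv
          field_simp
          ring
        rw [this]
        simp
      rw [h6, sub_zero]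
      exact abs_prod_le _ _ fun w _ => abs_sgn.le
    refine (Finset.sum_le_sum h5).trans ?_
    rw [Finset.sum_const, nsmul_eq_mul, mul_one]
    exact_mod_cast Finset.card_image_le
  rw [Finset.sum_sub_distrib] at h3
  have h7 := abs_add_le (∑ x : F, ∏ v ∈ V, (quadraticChar F (v.1 * x + v.2) : ℝ))
    (∑ x : F, ∏ v ∈ V, ((sgn (v.1 * x + v.2) : ℤˣ) : ℝ) -
      ∑ x : F, ∏ v ∈ V, (quadraticChar F (v.1 * x + v.2) : ℝ))
  rw [add_sub_cancel] at h7
  linarith

end weil

end

end Pool.Agent.K6.H54.Pal
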