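import Mathlib
import Pool.Agent.K6.H54.Pal.Weil

/-!
# The three Paley sign functions and their correlations
-/

set_option autoImplicit false

namespace Pool.Agent.K6.H54.Pal

open Finset

noncomputable section

/-- All correlations `∑ t, ∏ a ∈ U, η (t a)` of the sign function `η` of order at most `r` are at
most `Δ`. -/
def CorrA {A : Type} [Group A] [Fintype A] (η : A → ℤˣ) (r : ℕ) (Δ : ℝ) : Prop :=
  ∀ U : Finset A, U.Nonempty → U.card ≤ r → |∑ t : A, ∏ a ∈ U, ((η (t * a) : ℤ) : ℝ)| ≤ Δ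

theorem corr_of_corrA {G : Type} [Group G] [Fintype G] {c : G} {A : Type} [Group A] [Fintype A]
    {η : A → ℤˣ} {r : ℕ} {Δ : ℝ} (h : CorrA η r Δ) (e : G ≃* ℤˣ × A) (he : e c = (-1, 1)) :
    Corr (fun σ => (e σ).1 * η (e σ).2) c r (2 * Δ) := by
  classical
  intro U hne hcard hU
  set p : ℝ := ∏ a ∈ U, (((e a).1 : ℤ) : ℝ) with hp
  set U' : Finset A := U.image fun a => (e a).2 with hU'
  have hinj : ∀ a ∈ U, ∀ b ∈ U, (e a).2 = (e b).2 → a = b := by
    intro a ha b hb hab
    by_contra hne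
    have h1 : (e a).1 ≠ (e b).1 := fun h1 => hne (e.injective (Prod.ext h1 hab))
    have h2 : (e a).1 = (e b).1 * (-1) := by
      rcases Int.units_eq_one_or (e a).1 with h3 | h3 <;>
        rcases Int.units_eq_one_or (e b).1 with h4 | h4 <;> rw [h3, h4] at h1 ⊢ <;> simp at h1 ⊢
    apply hU b hb
    have h5 : b * c = a := by
      apply e.injective
      rw [map_mul, he]
      refine Prod.ext ?_ ?_
      · exact h2.symm
      · simpa using hab.symm
    rw [h5]
    exact ha
  have h1 : ∑ g : G, ∏ a ∈ U, ((((e (g * a)).1 * η (e (g * a)).2 : ℤˣ) : ℤ) : ℝ) =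
      (∑ s : ℤˣ, ((s : ℤ) : ℝ) ^ U.card) * p * ∑ t : A, ∏ a ∈ U', ((η (t * a) : ℤ) : ℝ) := by
    have h2 : ∀ g : G, ∏ a ∈ U, ((((e (g * a)).1 * η (e (g * a)).2 : ℤˣ) : ℤ) : ℝ) =
        ((((e g).1 : ℤ) : ℝ) ^ U.card * p) * ∏ a ∈ U', ((η ((e g).2 * a) : ℤ) : ℝ) := by
      intro g
      rw [hU', Finset.prod_image (fun a ha b hb hab => hinj a ha b hb hab), hp,
        ← Finset.prod_const, ← Finset.prod_mul_distrib, ← Finset.prod_mul_distrib]
      refine Finset.prod_congr rfl fun a _ => ?_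
      rw [map_mul]
      simp only [Prod.fst_mul, Prod.snd_mul]
      push_cast
      rfl
    simp_rw [h2]
    rw [← Equiv.sum_comp e.toEquiv.symm]
    simp only [MulEquiv.toEquiv_eq_coe, MulEquiv.coe_toEquiv_symm, MulEquiv.apply_symm_apply]
    rw [Fintype.sum_prod_type]
    simp only
    rw [mul_assoc, Finset.sum_mul]
    refine Finset.sum_congr rfl fun s _ => ?_
    rw [← Finset.mul_sum, mul_assoc]
  simp only
  rw [h1, abs_mul, abs_mul]
  have hp1 : |p| = 1 := by
    rw [hp, Finset.abs_prod]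
    apply Finset.prod_eq_one
    intro a _
    rcases unit_cast_or (e a).1 with h | h <;> rw [h] <;> simp
  have hs : |∑ s : ℤˣ, ((s : ℤ) : ℝ) ^ U.card| ≤ 2 := by
    refine (Finset.abs_sum_le_sum_abs _ _).trans ?_
    have : ∀ s ∈ (Finset.univ : Finset ℤˣ), |((s : ℤ) : ℝ) ^ U.card| ≤ 1 := by
      intro s _
      rw [abs_pow]
      rcases unit_cast_or s with h | h <;> rw [h] <;> simp
    refine (Finset.sum_le_sum this).trans ?_
    simp
  have hA := h U' (hne.image _) (Finset.card_image_le.trans hcard)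
  rw [hp1, mul_one]
  exact mul_le_mul hs hA (abs_nonneg _) (by norm_num)

section paley

variable {F : Type} [Field F] [Fintype F]

theorem one_le_sqrt : (1 : ℝ) ≤ Real.sqrt (Fintype.card F) := by
  rw [Real.one_le_sqrt]
  exact_mod_cast Fintype.card_pos

theorem corr_add (hF : ringChar F ≠ 2) [Fintype (Multiplicative F)]
    {U : Finset (Multiplicative F)} (hne : U.Nonempty) :
    |∑ t : Multiplicative F, ∏ a ∈ U, (((sgn (Multiplicative.toAdd (t * a)) : ℤˣ) : ℤ) : ℝ)| ≤
      2 * U.card * Real.sqrt (Fintype.card F) := by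
  classical
  set V : Finset (F × F) := U.image fun a => ((1 : F), Multiplicative.toAdd a) with hV
  have hinj : Function.Injective fun a : Multiplicative F => ((1 : F), Multiplicative.toAdd a) := by
    intro a b h
    exact Multiplicative.toAdd.injective (Prod.ext_iff.1 h).2
  have hcard : V.card = U.card := Finset.card_image_of_injective _ hinj
  have h1 := sgn_lin hF (V := V) (hne.image _) (by
    intro v hv
    obtain ⟨a, -, rfl⟩ := Finset.mem_image.1 hv
    exact one_ne_zero) (by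
    intro v hv w hw hvw
    obtain ⟨a, -, rfl⟩ := Finset.mem_image.1 hv
    obtain ⟨b, -, rfl⟩ := Finset.mem_image.1 hw
    intro h
    apply hvw
    simp only [one_mul] at h
    rw [h])
  have h2 : ∑ t : Multiplicative F, ∏ a ∈ U,
      (((sgn (Multiplicative.toAdd (t * a)) : ℤˣ) : ℤ) : ℝ) =
      ∑ x : F, ∏ v ∈ V, ((sgn (v.1 * x + v.2) : ℤˣ) : ℝ) := by
    refine Fintype.sum_equiv Multiplicative.toAdd _ _ fun t => ?_
    rw [hV, Finset.prod_image (fun a _ b _ h => hinj h)]
    refine Finset.prod_congr rfl fun a _ => ?_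
    rw [toAdd_mul, one_mul]
  rw [h2]
  refine h1.trans ?_
  rw [hcard]
  have h3 := one_le_sqrt (F := F)
  have h4 : (0 : ℝ) ≤ U.card := Nat.cast_nonneg _
  nlinarith

theorem sum_units (g : F → ℝ) [DecidableEq F] [Fintype Fˣ] :
    ∑ t : Fˣ, g t = ∑ x : F, g x - g 0 := by
  rw [← Finset.add_sum_erase Finset.univ g (Finset.mem_univ 0), add_sub_cancel_left]
  refine Finset.sum_bij' (fun t _ => (t : F)) (fun x hx => Units.mk0 x (Finset.mem_erase.1 hx).1)
    ?_ ?_ ?_ ?_ ?_
  · intro t _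
    exact Finset.mem_erase.2 ⟨t.ne_zero, Finset.mem_univ _⟩
  · intro x _
    exact Finset.mem_univ _
  · intro t _
    exact Units.ext rfl
  · intro x _
    rfl
  · intro t _
    rfl

theorem corr_mul (hF : ringChar F ≠ 2) [Fintype Fˣ] {U : Finset Fˣ} (hne : U.Nonempty) :
    |∑ t : Fˣ, ∏ a ∈ U, (((sgn (((t * a : Fˣ) : F) + 1) : ℤˣ) : ℤ) : ℝ)| ≤
      2 * U.card * Real.sqrt (Fintype.card F) := by
  classical
  set V : Finset (F × F) := U.image fun a : Fˣ => ((a : F), (1 : F)) with hV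
  have hinj : Function.Injective fun a : Fˣ => ((a : F), (1 : F)) := by
    intro a b h
    exact Units.ext (Prod.ext_iff.1 h).1
  have hcard : V.card = U.card := Finset.card_image_of_injective _ hinj
  have h1 := sgn_lin hF (V := V) (hne.image _) (by
    intro v hv
    obtain ⟨a, -, rfl⟩ := Finset.mem_image.1 hv
    exact a.ne_zero) (by
    intro v hv w hw hvw
    obtain ⟨a, -, rfl⟩ := Finset.mem_image.1 hv
    obtain ⟨b, -, rfl⟩ := Finset.mem_image.1 hw
    intro h
    apply hvw
    simp only [mul_one] at h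
    rw [h])
  have h2 : ∑ t : Fˣ, ∏ a ∈ U, (((sgn (((t * a : Fˣ) : F) + 1) : ℤˣ) : ℤ) : ℝ) =
      ∑ x : F, ∏ v ∈ V, ((sgn (v.1 * x + v.2) : ℤˣ) : ℝ) -
        ∏ v ∈ V, ((sgn (v.1 * 0 + v.2) : ℤˣ) : ℝ) := by
    rw [← sum_units (fun x => ∏ v ∈ V, ((sgn (v.1 * x + v.2) : ℤˣ) : ℝ))]
    refine Fintype.sum_equiv (Equiv.refl _) _ _ fun t => ?_
    rw [hV, Finset.prod_image (fun a _ b _ h => hinj h)]
    refine Finset.prod_congr rfl fun a _ => ?_
    simp only [Equiv.refl_apply, Units.val_mul, mul_comm]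
  rw [h2]
  have h5 : |∏ v ∈ V, ((sgn (v.1 * 0 + v.2) : ℤˣ) : ℝ)| ≤ 1 :=
    abs_prod_le _ _ fun w _ => abs_sgn.le
  have h6 := abs_sub (∑ x : F, ∏ v ∈ V, ((sgn (v.1 * x + v.2) : ℤˣ) : ℝ))
    (∏ v ∈ V, ((sgn (v.1 * 0 + v.2) : ℤˣ) : ℝ))
  rw [hcard] at h1
  have h3 := one_le_sqrt (F := F)
  have h4 : (0 : ℝ) ≤ U.card := Nat.cast_nonneg _
  nlinarith

theorem sum_square [DecidableEq F] [Fintype (Subgroup.square Fˣ)] (g : F → ℝ) :
    2 * ∑ t : Subgroup.square Fˣ, g ((t : Fˣ) : F) =
      ∑ x : F, g x + ∑ x : F, (quadraticChar F x : ℝ) * g x - g 0 := by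
  have h1 : ∑ t : Subgroup.square Fˣ, g ((t : Fˣ) : F) =
      ∑ t : Fˣ, if IsSquare (t : F) then g (t : F) else 0 := by
    rw [← Finset.sum_filter]
    refine Finset.sum_bij' (fun t _ => (t : Fˣ)) (fun t ht => ⟨t, ?_⟩) ?_ ?_ ?_ ?_ ?_
    · rw [Finset.mem_filter] at ht
      obtain ⟨r, hr⟩ := ht.2
      have hr0 : r ≠ 0 := by
        rintro rfl
        exact t.ne_zero (by rw [hr, zero_mul])
      exact ⟨Units.mk0 r hr0, Units.ext hr⟩
    · intro t _
      rw [Finset.mem_filter]
      refine ⟨Finset.mem_univ _, ?_⟩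
      obtain ⟨r, hr⟩ := t.2
      exact ⟨r, by rw [hr]; rfl⟩
    · intro t _
      exact Finset.mem_univ _
    · intro t _
      rfl
    · intro t _
      rfl
    · intro t _
      rfl
  rw [h1, sum_units (fun x => if IsSquare x then g x else 0)]
  simp only [IsSquare.zero, if_true]
  rw [← Finset.sum_add_distrib, mul_sub, Finset.mul_sum,
    ← Finset.add_sum_erase Finset.univ _ (Finset.mem_univ 0),
    ← Finset.add_sum_erase Finset.univ (fun x => g x + (quadraticChar F x : ℝ) * g x)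
      (Finset.mem_univ 0)]
  have h2 : ∑ x ∈ Finset.univ.erase (0 : F), 2 * (if IsSquare x then g x else 0) =
      ∑ x ∈ Finset.univ.erase (0 : F), (g x + (quadraticChar F x : ℝ) * g x) := by
    refine Finset.sum_congr rfl fun x hx => ?_
    have hx0 : x ≠ 0 := (Finset.mem_erase.1 hx).1
    by_cases h : IsSquare x
    · rw [if_pos h, (quadraticChar_one_iff_isSquare hx0).2 h]
      push_cast
      ring
    · rw [if_neg h, quadraticChar_neg_one_iff_not_isSquare.2 h]
      push_cast
      ring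
  rw [h2]
  simp

theorem corr_sq (hF : ringChar F ≠ 2) [Fintype (Subgroup.square Fˣ)] {c : F}
    (hc : ¬ IsSquare (-c)) {U : Finset (Subgroup.square Fˣ)} (hne : U.Nonempty) :
    |∑ t : Subgroup.square Fˣ, ∏ a ∈ U,
      (((sgn ((((t * a : Subgroup.square Fˣ) : Fˣ) : F) + c) : ℤˣ) : ℤ) : ℝ)| ≤
      2 * U.card * Real.sqrt (Fintype.card F) := by
  classical
  have hc0 : c ≠ 0 := by
    rintro rfl
    exact hc (by simp)
  set V : Finset (F × F) := U.image fun a : Subgroup.square Fˣ => (((a : Fˣ) : F), c) with hV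
  have hinj : Function.Injective fun a : Subgroup.square Fˣ => (((a : Fˣ) : F), c) := by
    intro a b h
    exact Subtype.ext (Units.ext (Prod.ext_iff.1 h).1)
  have hcard : V.card = U.card := Finset.card_image_of_injective _ hinj
  have hV1 : ∀ v ∈ V, v.1 ≠ 0 ∧ v.2 = c := by
    intro v hv
    obtain ⟨a, -, rfl⟩ := Finset.mem_image.1 hv
    exact ⟨a.1.ne_zero, rfl⟩
  have hVd : ∀ v ∈ V, ∀ w ∈ V, v ≠ w → v.1 * w.2 ≠ w.1 * v.2 := by
    intro v hv w hw hvw
    obtain ⟨a, -, rfl⟩ := Finset.mem_image.1 hv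
    obtain ⟨b, -, rfl⟩ := Finset.mem_image.1 hw
    intro h
    apply hvw
    simp only at h
    rw [mul_right_cancel₀ hc0 h]
  have h1 := weil_lin hF (V := V) (hne.image _) (fun v hv => (hV1 v hv).1) hVd
  have hnot : ((1 : F), (0 : F)) ∉ V := fun h => hc0 (hV1 _ h).2.symm
  have h2 := weil_lin hF (V := insert ((1 : F), (0 : F)) V) (Finset.insert_nonempty _ _) (by
    intro v hv
    rcases Finset.mem_insert.1 hv with rfl | hv
    · exact one_ne_zero
    · exact (hV1 v hv).1) (by
    intro v hv w hw hvw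
    rcases Finset.mem_insert.1 hv with rfl | hv <;> rcases Finset.mem_insert.1 hw with rfl | hw
    · exact absurd rfl hvw
    · simp only [one_mul, mul_zero]
      rw [(hV1 w hw).2]
      exact hc0
    · simp only [one_mul, mul_zero]
      rw [(hV1 v hv).2]
      exact hc0.symm
    · exact hVd v hv w hw hvw)
  rw [Finset.card_insert_of_notMem hnot] at h2
  simp only [Finset.prod_insert hnot, one_mul, add_zero] at h2
  have h3 : ∑ t : Subgroup.square Fˣ, ∏ a ∈ U,
      (((sgn ((((t * a : Subgroup.square Fˣ) : Fˣ) : F) + c) : ℤˣ) : ℤ) : ℝ) =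
      ∑ t : Subgroup.square Fˣ, ∏ v ∈ V, (quadraticChar F (v.1 * ((t : Fˣ) : F) + v.2) : ℝ) := by
    refine Finset.sum_congr rfl fun t _ => ?_
    rw [hV, Finset.prod_image (fun a _ b _ h => hinj h)]
    refine Finset.prod_congr rfl fun a _ => ?_
    have h4 : (((t * a : Subgroup.square Fˣ) : Fˣ) : F) = ((a : Fˣ) : F) * ((t : Fˣ) : F) := by
      rw [Subgroup.coe_mul, Units.val_mul, mul_comm]
    have h5 : ((a : Fˣ) : F) * ((t : Fˣ) : F) + c ≠ 0 := by
      intro h
      apply hc
      obtain ⟨x, hx⟩ := a.2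
      obtain ⟨y, hy⟩ := t.2
      refine ⟨x * y, ?_⟩
      have h6 : -c = ((a : Fˣ) : F) * ((t : Fˣ) : F) := by linear_combination -h
      rw [h6, hx, hy]
      simp only [Units.val_mul]
      ring
    rw [h4]
    exact_mod_cast sgn_cast h5
  rw [h3]
  have h4 := sum_square (fun x => ∏ v ∈ V, (quadraticChar F (v.1 * x + v.2) : ℝ))
  have h5 : |∏ v ∈ V, (quadraticChar F (v.1 * 0 + v.2) : ℝ)| ≤ 1 := by
    apply abs_prod_le
    intro v hv
    rw [mul_zero, zero_add]
    have hv2 : v.2 ≠ 0 := by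
      rw [(hV1 v hv).2]
      exact hc0
    rcases quadraticChar_dichotomy hv2 with h | h <;> rw [h] <;> simp
  rw [hcard] at h1 h2
  push_cast at h2
  set S := ∑ t : Subgroup.square Fˣ, ∏ v ∈ V, (quadraticChar F (v.1 * ((t : Fˣ) : F) + v.2) : ℝ)
    with hS
  have h6 := one_le_sqrt (F := F)
  have h7 : (1 : ℝ) ≤ U.card := by exact_mod_cast Finset.card_pos.2 hne
  rw [abs_le] at h1 h2 h5 ⊢
  constructor
  · nlinarith [h1.1, h2.1, h5.2]
  · nlinarith [h1.2, h2.2, h5.1]

end paley

/-- **The Paley sign functions** on the finite groups `A = (F, +)`, `F ˣ` and `(F ˣ) ²`, `F` a finite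
field of odd characteristic: the quadratic character of `x`, of `x + 1` and of `x + c`, where `-c` is
not a square (with the value `1` at zero). -/
inductive PaleySign : (A : Type) → Group A → (A → ℤˣ) → Prop
  | add (F : Type) [Field F] [Finite F] (hF : ringChar F ≠ 2) :
      PaleySign (Multiplicative F) inferInstance (fun x => sgn (Multiplicative.toAdd x))
  | mul (F : Type) [Field F] [Finite F] (hF : ringChar F ≠ 2) :
      PaleySign Fˣ inferInstance (fun x => sgn ((x : F) + 1))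
  | sq (F : Type) [Field F] [Finite F] (hF : ringChar F ≠ 2) (c : F) (hc : ¬ IsSquare (-c)) :
      PaleySign (Subgroup.square Fˣ) inferInstance (fun x => sgn (((x : Fˣ) : F) + c))

theorem card_square (F : Type) [Field F] [Fintype F] [DecidableEq F]
    [Fintype (Subgroup.square Fˣ)] (hF : ringChar F ≠ 2) :
    (Fintype.card F : ℝ) = 2 * Fintype.card (Subgroup.square Fˣ) + 1 := by
  have h1 := sum_square (F := F) (fun _ => 1)
  have h2 : ∑ x : F, (quadraticChar F x : ℝ) = 0 := by
    have h3 := quadraticChar_sum_zero hF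
    have h4 : ((∑ x : F, quadraticChar F x : ℤ) : ℝ) = ((0 : ℤ) : ℝ) := by rw [h3]
    push_cast at h4
    exact h4
  simp only [Finset.sum_const, Finset.card_univ, nsmul_eq_mul, mul_one, h2] at h1
  linarith

theorem corrA_of_paley {A : Type} [inst : Group A] [Fintype A] {η : A → ℤˣ}
    (h : PaleySign A inst η) (r : ℕ) :
    CorrA η r (2 * r * Real.sqrt (2 * Fintype.card A + 1)) := by
  classical
  have key : ∀ (u q g : ℝ), 0 ≤ u → u ≤ r → q ≤ 2 * g + 1 →
      2 * u * Real.sqrt q ≤ 2 * r * Real.sqrt (2 * g + 1) := by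
    intro u q g h0 h1 h2
    exact mul_le_mul (by linarith) (Real.sqrt_le_sqrt h2) (Real.sqrt_nonneg _) (by positivity)
  intro U hne hcard
  have hu : (U.card : ℝ) ≤ r := by exact_mod_cast hcard
  cases h with
  | add F hF =>
    have : Fintype F := Fintype.ofFinite F
    refine (corr_add hF hne).trans (key _ _ _ (Nat.cast_nonneg _) hu ?_)
    rw [Fintype.card_congr (Multiplicative.toAdd (α := F))]
    have : (0 : ℝ) ≤ Fintype.card F := Nat.cast_nonneg _
    linarith
  | mul F hF =>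
    have : Fintype F := Fintype.ofFinite F
    refine (corr_mul hF hne).trans (key _ _ _ (Nat.cast_nonneg _) hu ?_)
    have h1 : Fintype.card F = Fintype.card Fˣ + 1 := by
      have h2 : Fintype.card Fˣ = Fintype.card F - 1 := by
        rw [← Nat.card_eq_fintype_card, Nat.card_units, Nat.card_eq_fintype_card]
      have := Fintype.card_pos (α := F)
      omega
    rw [h1]
    push_cast
    have : (0 : ℝ) ≤ Fintype.card Fˣ := Nat.cast_nonneg _
    linarith
  | sq F hF c hc =>
    have : Fintype F := Fintype.ofFinite F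
    refine (corr_sq hF hc hne).trans (key _ _ _ (Nat.cast_nonneg _) hu ?_)
    rw [card_square F hF]

end

end Pool.Agent.K6.H54.Pal
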