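import Mathlib
import Pool.Agent.K6.H54.Jac.Emb
import Pool.Agent.K6.H54.Pal.Gal
import Pool.Agent.K6.H54.Pal.Paley

/-!
# The Paley type of the cyclotomic field of a prime `p ≡ 3` modulo `4`
-/

set_option autoImplicit false

namespace Pool.Agent.K6.H54.Pal

open NumberField Pool.Agent.K6.H54.Jac

noncomputable section

/-- **Paley types.** `E` is a Galois CM field whose Galois group is the product of `{1, -1}` and of a
group `A` with a Paley sign function `η`, such that complex conjugation is `(-1, 1)`. The type consists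
of the embeddings `φ₀ ∘ σ` such that `σ = (s, a)` with `s = η (a)`. -/
def IsPaleyType {E : Type} [Field E] [NumberField E] [IsCMField E] (Φ : Set (E →+* ℂ)) : Prop :=
  ∃ (A : Type) (_ : Group A) (η : A → ℤˣ) (e : (E ≃ₐ[ℚ] E) ≃* ℤˣ × A) (φ₀ : E →+* ℂ),
    PaleySign A inferInstance η ∧ e (conjGal E) = (-1, 1) ∧
    Φ = {φ | ∃ σ : E ≃ₐ[ℚ] E, φ = φ₀.comp (σ : E →+* E) ∧ (e σ).1 * η (e σ).2 = 1}

section cyc

variable {p : ℕ} [hpf : Fact p.Prime]

theorem not_isSquare_neg_one (h3 : p % 4 = 3) : ¬ IsSquare (-1 : ZMod p) := by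
  intro h
  exact (ZMod.exists_sq_eq_neg_one_iff.1 h) h3

theorem ringChar_ne_two (h3 : p % 4 = 3) : ringChar (ZMod p) ≠ 2 := by
  rw [ZMod.ringChar_zmod_n]
  omega

/-- `t ↦ ((t / p), t ^ 2)` -/
def fmap (p : ℕ) [Fact p.Prime] : (ZMod p)ˣ →* ℤˣ × Subgroup.square (ZMod p)ˣ :=
  MonoidHom.prod (quadraticChar (ZMod p)).toUnitHom
    ((powMonoidHom 2).codRestrict (Subgroup.square (ZMod p)ˣ) (fun x => ⟨x, pow_two x⟩))

theorem fmap_fst (x : (ZMod p)ˣ) : (((fmap p x).1 : ℤˣ) : ℤ) = quadraticChar (ZMod p) x := rfl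

theorem fmap_snd (x : (ZMod p)ˣ) : (((fmap p x).2 : (ZMod p)ˣ) : ZMod p) = (x : ZMod p) ^ 2 := rfl

theorem qc_neg_one (h3 : p % 4 = 3) : quadraticChar (ZMod p) (-1) = -1 :=
  quadraticChar_neg_one_iff_not_isSquare.2 (not_isSquare_neg_one h3)

theorem fmap_injective (h3 : p % 4 = 3) : Function.Injective (fmap p) := by
  rw [injective_iff_map_eq_one]
  intro x hx
  have h1 : quadraticChar (ZMod p) x = 1 := by
    rw [← fmap_fst, hx]
    rfl
  have h2 : (x : ZMod p) ^ 2 = 1 := by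
    rw [← fmap_snd, hx]
    rfl
  have h4 : ((x : ZMod p) - 1) * ((x : ZMod p) + 1) = 0 := by linear_combination h2
  rcases mul_eq_zero.1 h4 with h | h
  · exact Units.ext (sub_eq_zero.1 h)
  · exfalso
    have h5 : (x : ZMod p) = -1 := eq_neg_of_add_eq_zero_left h
    rw [h5, qc_neg_one h3] at h1
    exact absurd h1 (by decide)

theorem fmap_surjective (h3 : p % 4 = 3) : Function.Surjective (fmap p) := by
  rintro ⟨s, ⟨y, r, hr⟩⟩
  have key : ∃ x : (ZMod p)ˣ, ((s : ℤˣ) : ℤ) = quadraticChar (ZMod p) x ∧ x * x = r * r := by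
    have h1 : quadraticChar (ZMod p) ((-r : (ZMod p)ˣ) : ZMod p) =
        - quadraticChar (ZMod p) (r : ZMod p) := by
      rw [Units.val_neg, ← neg_one_mul, map_mul, qc_neg_one h3, neg_one_mul]
    rcases quadraticChar_dichotomy r.ne_zero with h | h <;>
      rcases Int.units_eq_one_or s with hs | hs
    · exact ⟨r, by rw [h, hs]; rfl, rfl⟩
    · exact ⟨-r, by rw [h1, h, hs]; rfl, by simp⟩
    · exact ⟨-r, by rw [h1, h, hs]; rfl, by simp⟩
    · exact ⟨r, by rw [h, hs]; rfl, rfl⟩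
  obtain ⟨x, hx1, hx2⟩ := key
  refine ⟨x, Prod.ext (Units.ext ?_) (Subtype.ext (Units.ext ?_))⟩
  · rw [fmap_fst]
    exact hx1.symm
  · rw [fmap_snd]
    simp only
    rw [hr, ← hx2, Units.val_mul, pow_two]

variable {E : Type} [Field E] [NumberField E] [hcyc : IsCyclotomicExtension {p} ℚ E] {ζ : E}

/-- the isomorphism of the Galois group with the residues -/
def eqv (p : ℕ) [hpf : Fact p.Prime] (E : Type) [Field E] [NumberField E]
    [IsCyclotomicExtension {p} ℚ E] : (E ≃ₐ[ℚ] E) ≃* (ZMod p)ˣ :=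
  have : NeZero p := ⟨hpf.out.ne_zero⟩
  IsCyclotomicExtension.autEquivPow E (Polynomial.cyclotomic.irreducible_rat hpf.out.pos)

theorem eqv_spec (hζ : IsPrimitiveRoot ζ p) (σ : E ≃ₐ[ℚ] E) :
    σ ζ = ζ ^ ((eqv p E σ : (ZMod p)ˣ) : ZMod p).val := by
  have : NeZero p := ⟨hpf.out.ne_zero⟩
  have hz := IsCyclotomicExtension.zeta_spec p ℚ E
  have h1 : σ (IsCyclotomicExtension.zeta p ℚ E) =
      IsCyclotomicExtension.zeta p ℚ E ^ ((eqv p E σ : (ZMod p)ˣ) : ZMod p).val :=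
    (hz.autToPow_spec ℚ σ).symm
  obtain ⟨i, -, hi⟩ := hz.eq_pow_of_pow_eq_one hζ.pow_eq_one
  rw [← hi, map_pow, h1, ← pow_mul, ← pow_mul, mul_comm]

theorem eqv_conj [IsCMField E] (hζ : IsPrimitiveRoot ζ p) :
    ((eqv p E (conjGal E) : (ZMod p)ˣ) : ZMod p) = -1 := by
  have : NeZero p := ⟨hpf.out.ne_zero⟩
  obtain ⟨φ⟩ : Nonempty (E →+* ℂ) := inferInstance
  obtain ⟨k, hk0, hk⟩ := exists_kk hζ φ
  have h1 := conjGal_apply φ ζ
  rw [eqv_spec hζ, map_pow, hk, ← om_neg, ← om_pow_mul] at h1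
  have h2 := om_inj h1
  have h3 : k * (((eqv p E (conjGal E) : (ZMod p)ˣ) : ZMod p) + 1) = 0 := by
    rw [mul_add, h2]
    ring
  rcases mul_eq_zero.1 h3 with h | h
  · exact absurd h hk0
  · exact eq_neg_of_add_eq_zero_left h

theorem exists_base [IsCMField E] (hζ : IsPrimitiveRoot ζ p) :
    ∃ φ₀ : E →+* ℂ, φ₀ ζ = om p := by
  obtain ⟨φ⟩ : Nonempty (E →+* ℂ) := inferInstance
  obtain ⟨k, hk0, hk⟩ := exists_kk hζ φ
  set σ := (eqv p E).symm (Units.mk0 k hk0)⁻¹ with hσ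
  refine ⟨emb φ σ, ?_⟩
  have h1 : emb φ σ ζ = φ (σ ζ) := rfl
  have h2 : ((eqv p E σ : (ZMod p)ˣ) : ZMod p) = k⁻¹ := by
    rw [hσ, MulEquiv.apply_symm_apply]
    simp
  rw [h1, eqv_spec hζ, map_pow, hk, ← om_pow_mul, h2, mul_inv_cancel₀ hk0, ZMod.val_one, pow_one]

theorem paley_cyclotomic [IsCMField E] (h3 : p % 4 = 3) (hζ : IsPrimitiveRoot ζ p) :
    IsPaleyType {φ : E →+* ℂ | ∃ t : ZMod p,
      φ ζ = Complex.exp (2 * Real.pi * Complex.I / p) ^ t.val ∧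
        quadraticChar (ZMod p) (t ^ 3 + t) = 1} := by
  have : NeZero p := ⟨hpf.out.ne_zero⟩
  have hgal : IsGalois ℚ E := IsCyclotomicExtension.isGalois {p} ℚ E
  obtain ⟨φ₀, hφ₀⟩ := exists_base hζ
  set e := (eqv p E).trans (MulEquiv.ofBijective (fmap p) ⟨fmap_injective h3, fmap_surjective h3⟩)
    with he
  have he' : ∀ σ, e σ = fmap p (eqv p E σ) := fun σ => rfl
  refine ⟨Subgroup.square (ZMod p)ˣ, inferInstance, fun x => sgn (((x : (ZMod p)ˣ) : ZMod p) + 1),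
    e, φ₀, PaleySign.sq (ZMod p) (ringChar_ne_two h3) 1 (not_isSquare_neg_one h3), ?_, ?_⟩
  · rw [he']
    have h4 := eqv_conj (p := p) hζ
    refine Prod.ext (Units.ext ?_) (Subtype.ext (Units.ext ?_))
    · rw [fmap_fst, h4, qc_neg_one h3]
      rfl
    · rw [fmap_snd, h4]
      simp
  · have key : ∀ σ : E ≃ₐ[ℚ] E, ((e σ).1 * sgn (((((e σ).2 : Subgroup.square (ZMod p)ˣ) :
        (ZMod p)ˣ) : ZMod p) + 1) = 1) ↔ quadraticChar (ZMod p)
          (((eqv p E σ : (ZMod p)ˣ) : ZMod p) ^ 3 + ((eqv p E σ : (ZMod p)ˣ) : ZMod p)) = 1 := by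
      intro σ
      set x : (ZMod p)ˣ := eqv p E σ with hx
      have h4 : (x : ZMod p) ^ 2 + 1 ≠ 0 := by
        intro h
        apply not_isSquare_neg_one h3
        exact ⟨x, by linear_combination -h⟩
      have h5 : (((e σ).1 * sgn (((((e σ).2 : Subgroup.square (ZMod p)ˣ) :
          (ZMod p)ˣ) : ZMod p) + 1) : ℤˣ) : ℤ) =
          quadraticChar (ZMod p) ((x : ZMod p) ^ 3 + x) := by
        rw [he', ← hx, Units.val_mul, fmap_fst, fmap_snd, sgn_cast h4, ← map_mul]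
        congr 1
        ring
      rw [← h5]
      exact ⟨fun h => by rw [h]; rfl, fun h => Units.ext h⟩
    ext φ
    constructor
    · rintro ⟨t, ht1, ht2⟩
      obtain ⟨σ, rfl⟩ := exists_gal φ₀ φ
      refine ⟨σ, rfl, (key σ).2 ?_⟩
      have h6 : emb φ₀ σ ζ = om p ^ ((eqv p E σ : (ZMod p)ˣ) : ZMod p).val := by
        change φ₀ (σ ζ) = _
        rw [eqv_spec hζ, map_pow, hφ₀]
      have h7 : t = ((eqv p E σ : (ZMod p)ˣ) : ZMod p) := om_inj (ht1.symm.trans h6)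
      rw [← h7]
      exact ht2
    · rintro ⟨σ, rfl, hσ⟩
      refine ⟨((eqv p E σ : (ZMod p)ˣ) : ZMod p), ?_, (key σ).1 hσ⟩
      change φ₀ (σ ζ) = _
      rw [eqv_spec hζ, map_pow, hφ₀]
      rfl

end cyc

end

end Pool.Agent.K6.H54.Pal
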