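import Mathlib
import Pool.Agent.K6.H54.Pal.Gal

/-!
# Small correlations of the sign functions imply the conditions on the CM types
-/

set_option autoImplicit false

namespace Pool.Agent.K6.H54.Pal

open NumberField Pool.Agent.H204R3.CM Pool.Agent.W546.GHC Pool.Agent.X311.CmY
  Pool.Agent.TH170.LV

noncomputable section

section family

variable {ι : Type} [Fintype ι] {E : ι → Type} [∀ i, Field (E i)] [∀ i, NumberField (E i)]
  [∀ i, IsCMField (E i)] [∀ i, IsGalois ℚ (E i)]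
  (φ₀ : ∀ i, E i →+* ℂ) {ε : ∀ i, (E i ≃ₐ[ℚ] E i) → ℤˣ}

omit [Fintype ι] [∀ i, IsCMField (E i)] [∀ i, IsGalois ℚ (E i)] in
theorem comp_emb {τ : ℂ ≃+* ℂ} {i : ι} {g : E i ≃ₐ[ℚ] E i}
    (h : (τ : ℂ →+* ℂ).comp (φ₀ i) = emb (φ₀ i) g) (σ : E i ≃ₐ[ℚ] E i) :
    (τ : ℂ →+* ℂ).comp (emb (φ₀ i) σ) = emb (φ₀ i) (g * σ) := by
  ext x
  exact congrArg (fun f : E i →+* ℂ => f (σ x)) h

theorem pow_mono_aux {a b : ℕ} {x y Δ : ℝ} (hab : a ≤ b) (hx : 0 ≤ x) (hxy : x ≤ y) (hΔ : 0 ≤ Δ) :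
    (2 : ℝ) ^ a * x * Δ ≤ 2 ^ b * y * Δ := by
  have h1 : (2 : ℝ) ^ a ≤ 2 ^ b := pow_le_pow_right₀ (by norm_num) hab
  exact mul_le_mul_of_nonneg_right (mul_le_mul h1 hxy hx (by positivity)) hΔ

theorem levelFree_of_corr {K : Subfield ℂ} (hK : Independent K E) {k L : ℕ} {Δ : ι → ℝ}
    (hΔ : ∀ i, 0 ≤ Δ i) (hC : ∀ i, Corr (ε i) (conjGal (E i)) (L + 2) (Δ i))
    (hlt : ∀ i, (2 : ℝ) ^ (L + 1) * k * Δ i < Fintype.card (E i ≃ₐ[ℚ] E i)) :
    LevelFree (fun i => typeOf (φ₀ i) (ε i)) k L := by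
  classical
  intro n hn B hB hBn a hfree
  set X : Finset (Σ i, (E i →+* ℂ)) := Finset.univ.image a with hX
  obtain ⟨S, hSX, hScard, hSone, hSbig⟩ : ∃ S ⊆ X, S.card ≤ B + 1 ∧ 1 ≤ S.card ∧
      ((∀ l, a l ∈ S) ∨ S.card = B + 1) := by
    by_cases h : X.card ≤ B + 1
    · refine ⟨X, subset_rfl, h, ?_, Or.inl fun l => Finset.mem_image_of_mem a (Finset.mem_univ l)⟩
      exact Finset.card_pos.2 ⟨a ⟨0, by omega⟩, Finset.mem_image_of_mem a (Finset.mem_univ _)⟩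
    · push Not at h
      obtain ⟨S, h1, h2⟩ := Finset.exists_subset_card_eq (s := X) (n := B + 1) h.le
      exact ⟨S, h1, h2.le, by omega, Or.inr h2⟩
  have hex : ∀ (l : Fin n) (i : ι), ∃ σ : E i ≃ₐ[ℚ] E i, (a l).1 = i →
      a l = (⟨i, emb (φ₀ i) σ⟩ : Σ i, (E i →+* ℂ)) := by
    intro l i
    by_cases h : (a l).1 = i
    · subst h
      obtain ⟨σ, hσ⟩ := exists_gal (φ₀ (a l).1) (a l).2
      exact ⟨σ, fun _ => by rw [← hσ]⟩
    · exact ⟨1, fun h' => absurd h' h⟩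
  choose b hb using hex
  set Si : ∀ i, Finset (E i ≃ₐ[ℚ] E i) := fun i =>
    Finset.univ.filter fun σ => (⟨i, emb (φ₀ i) σ⟩ : Σ i, (E i →+* ℂ)) ∈ S with hSi
  have hmemS : ∀ i σ, σ ∈ Si i ↔ (⟨i, emb (φ₀ i) σ⟩ : Σ i, (E i →+* ℂ)) ∈ S := by
    intro i σ
    rw [hSi]
    simp
  set T : Finset (Fin n) := Finset.univ.filter fun l => a l ∈ S with hT
  have hTS : S.card ≤ T.card := by
    have h1 : S ⊆ T.image a := by
      intro x hx
      obtain ⟨l, -, hl⟩ := Finset.mem_image.1 (hSX hx)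
      exact Finset.mem_image.2 ⟨l, by rw [hT]; simp [hl, hx], hl⟩
    exact (Finset.card_le_card h1).trans Finset.card_image_le
  set J : ι → Finset (Fin n) := fun i =>
    Finset.univ.filter fun l => a l ∉ S ∧ (a l).1 = i with hJ
  have hmemJ : ∀ i l, l ∈ J i ↔ a l ∉ S ∧ (a l).1 = i := by
    intro i l
    rw [hJ]
    simp
  have hJcard : ∀ i, (J i).card + 1 ≤ n := by
    intro i
    have h1 : (J i).card + T.card ≤ n := by
      rw [← Finset.card_union_of_disjoint]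
      · exact (Finset.card_le_univ _).trans (by simp)
      · rw [Finset.disjoint_left]
        intro l h1 h2
        rw [hT] at h2
        exact ((hmemJ i l).1 h1).1 (by simpa using h2)
    omega
  have hSicard : ∀ i, (Si i).card ≤ S.card := by
    intro i
    refine Finset.card_le_card_of_injOn (fun σ => (⟨i, emb (φ₀ i) σ⟩ : Σ i, (E i →+* ℂ))) ?_ ?_
    · intro σ hσ
      exact (hmemS i σ).1 hσ
    · intro σ _ σ' _ h
      exact emb_inj (φ₀ i) (by simpa using h)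
  have hSword : ∀ x ∈ S, ∃ l, a l = x := by
    intro x hx
    obtain ⟨l, -, hl⟩ := Finset.mem_image.1 (hSX hx)
    exact ⟨l, hl⟩
  have key : ∀ i, ∃ g : E i ≃ₐ[ℚ] E i, (∀ σ ∈ Si i, ε i (g * σ) = 1) ∧
      0 ≤ ∑ l ∈ J i, ((ε i (g * b l i) : ℤ)) := by
    intro i
    refine core (hΔ i) (hC i) conjGal_mul_self conjGal_ne_one (Si i) ?_ (J i) (fun l => b l i)
      ?_ ((hSicard i).trans (by omega)) (fun _ => by have := hSicard i; omega) ?_
    · intro σ h1 h2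
      rw [hmemS] at h1 h2
      obtain ⟨l, hl⟩ := hSword _ h1
      obtain ⟨l', hl'⟩ := hSword _ h2
      apply hfree l' l
      rw [hl', hl, conj_emb]
    · intro l hl
      rw [hmemJ] at hl
      have h1 := hb l i hl.2
      refine ⟨fun h2 => ?_, fun h2 => ?_⟩
      · rw [hmemS, ← h1] at h2
        exact hl.1 h2
      · rw [hmemS] at h2
        obtain ⟨l', hl'⟩ := hSword _ h2
        apply hfree l' l
        rw [hl', h1, conj_emb]
    · refine lt_of_le_of_lt (pow_mono_aux (b := L + 1)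
        (x := ((J i).card : ℝ) + 1) (y := (k : ℝ)) ?_
        (add_nonneg (Nat.cast_nonneg _) zero_le_one) ?_ (hΔ i))
        (hlt i)
      · have := hSicard i
        omega
      · have := hJcard i
        have h2 : (J i).card + 1 ≤ k := this.trans hn
        have h3 : (((J i).card + 1 : ℕ) : ℝ) ≤ k := Nat.cast_le.2 h2
        rw [Nat.cast_add, Nat.cast_one] at h3
        exact h3
  choose g hg1 hg2 using key
  obtain ⟨τ, -, hτ⟩ := hK φ₀ (fun i => emb (φ₀ i) (g i))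
  refine ⟨τ, ?_⟩
  set f : Fin n → ℤ := fun l => if (τ : ℂ →+* ℂ).comp (a l).2 ∈ typeOf (φ₀ (a l).1) (ε (a l).1)
    then (1 : ℤ) else -1 with hf
  have hfval : ∀ (i : ι) (σ : E i ≃ₐ[ℚ] E i) (l : Fin n),
      a l = (⟨i, emb (φ₀ i) σ⟩ : Σ i, (E i →+* ℂ)) → f l = (ε i (g i * σ) : ℤ) := by
    intro i σ l h
    have h1 : ((τ : ℂ →+* ℂ).comp (a l).2 ∈ typeOf (φ₀ (a l).1) (ε (a l).1)) ↔
        ε i (g i * σ) = 1 := by
      rw [h]
      change (τ : ℂ →+* ℂ).comp (emb (φ₀ i) σ) ∈ typeOf (φ₀ i) (ε i) ↔ _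
      rw [comp_emb φ₀ (hτ i), mem_typeOf]
    rw [hf]
    rcases Int.units_eq_one_or (ε i (g i * σ)) with h | h
    · simp only [if_pos (h1.2 h)]
      rw [h]
      rfl
    · simp only
      rw [if_neg (fun h3 => absurd (h.symm.trans (h1.1 h3)) (by decide)), h]
      rfl
  have hfT : ∀ l ∈ T, f l = 1 := by
    intro l hl
    have hl' : a l ∈ S := by
      rw [hT] at hl
      simpa using hl
    obtain ⟨σ, hσ⟩ := exists_gal (φ₀ (a l).1) (a l).2
    have h1 : a l = (⟨(a l).1, emb (φ₀ (a l).1) σ⟩ : Σ i, (E i →+* ℂ)) := by rw [← hσ]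
    rw [hfval _ σ l h1, hg1 _ σ ((hmemS _ _).2 (h1 ▸ hl'))]
    simp
  have hsum : ∑ l, f l = (T.card : ℤ) + ∑ i, ∑ l ∈ J i, f l := by
    rw [← Finset.sum_filter_add_sum_filter_not Finset.univ (fun l => a l ∈ S)]
    congr 1
    · rw [Finset.sum_congr rfl hfT]
      simp
    · rw [← Finset.sum_fiberwise (Finset.univ.filter fun l => ¬ a l ∈ S) (fun l => (a l).1)]
      refine Finset.sum_congr rfl fun i _ => ?_
      rw [Finset.filter_filter]
  have hge : (T.card : ℤ) ≤ ∑ l, f l := by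
    rw [hsum]
    have : 0 ≤ ∑ i, ∑ l ∈ J i, f l := by
      refine Finset.sum_nonneg fun i _ => ?_
      rw [Finset.sum_congr rfl fun l hl => hfval i (b l i) l (hb l i ((hmemJ i l).1 hl).2)]
      exact hg2 i
    linarith
  have hTbig : B < T.card := by
    rcases hSbig with h | h
    · have : T = Finset.univ := by
        rw [hT]
        ext l
        simp [h l]
      rw [this]
      simp
      omega
    · omega
  refine lt_of_lt_of_le ?_ (le_abs_self _)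
  calc (B : ℤ) < T.card := by exact_mod_cast hTbig
    _ ≤ ∑ l, f l := hge

omit [Fintype ι] in
theorem occursOver_of_corr {K : Subfield ℂ} (hK : Independent K E) {s : ℕ} {Δ : ι → ℝ}
    (hΔ : ∀ i, 0 ≤ Δ i) (hC : ∀ i, Corr (ε i) (conjGal (E i)) s (Δ i))
    (hlt : ∀ i, (2 : ℝ) ^ s * Δ i < Fintype.card (E i ≃ₐ[ℚ] E i)) :
    SmallSetsOccurOver K (fun i => typeOf (φ₀ i) (ε i)) s := by
  classical
  intro X hX hfree
  set Si : ∀ i, Finset (E i ≃ₐ[ℚ] E i) := fun i =>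
    Finset.univ.filter fun σ => (⟨i, emb (φ₀ i) σ⟩ : Σ i, (E i →+* ℂ)) ∈ X with hSi
  have hmemS : ∀ i σ, σ ∈ Si i ↔ (⟨i, emb (φ₀ i) σ⟩ : Σ i, (E i →+* ℂ)) ∈ X := by
    intro i σ
    rw [hSi]
    simp
  have hSicard : ∀ i, (Si i).card ≤ s := by
    intro i
    have hinj : Function.Injective (fun σ : E i ≃ₐ[ℚ] E i =>
        (⟨i, emb (φ₀ i) σ⟩ : Σ i, (E i →+* ℂ))) := by
      intro σ σ' h
      exact emb_inj (φ₀ i) (by simpa using h)
    have h1 : ((Si i : Set (E i ≃ₐ[ℚ] E i))).encard ≤ X.encard := by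
      rw [← hinj.encard_image]
      refine Set.encard_le_encard ?_
      rintro _ ⟨σ, hσ, rfl⟩
      exact (hmemS i σ).1 hσ
    rw [Set.encard_coe_eq_coe_finsetCard] at h1
    exact_mod_cast h1.trans hX
  have key : ∀ i, ∃ g : E i ≃ₐ[ℚ] E i, ∀ σ ∈ Si i, ε i (g * σ) = 1 := by
    intro i
    obtain ⟨g, hg, -⟩ := core (hΔ i) (hC i) conjGal_mul_self conjGal_ne_one (Si i) (by
        intro σ h1 h2
        rw [hmemS] at h1 h2
        apply hfree _ h1
        rw [conj_emb]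
        exact h2) (∅ : Finset Unit) (fun _ => 1) (by simp) (hSicard i) (by simp) (by
        refine lt_of_le_of_lt ?_ (hlt i)
        have h1 := pow_mono_aux (x := 1) (y := 1) (hSicard i) (by norm_num) le_rfl (hΔ i)
        simpa using h1)
    exact ⟨g, hg⟩
  choose g hg using key
  obtain ⟨τ, hτK, hτ⟩ := hK φ₀ (fun i => emb (φ₀ i) (g i))
  refine ⟨τ, hτK, ?_⟩
  rintro ⟨i, φ⟩ hx
  obtain ⟨σ, rfl⟩ := exists_gal (φ₀ i) φ
  change (τ : ℂ →+* ℂ).comp (emb (φ₀ i) σ) ∈ typeOf (φ₀ i) (ε i)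
  rw [comp_emb φ₀ (hτ i), mem_typeOf]
  exact hg i σ ((hmemS i σ).2 hx)

end family

end

end Pool.Agent.K6.H54.Pal
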