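import Mathlib

/-!
# Numerical conditions
-/

set_option autoImplicit false

namespace Pool.Agent.K6.H54.Pal

open Filter

theorem num_one {X g : ℕ} (h : 2 * X ^ 2 < g) : (X : ℝ) * Real.sqrt (2 * g + 1) < g := by
  have h1 : (2 * (X : ℝ) ^ 2 + 1) ≤ g := by exact_mod_cast h
  have hX : (0 : ℝ) ≤ X := Nat.cast_nonneg _
  have hg : (0 : ℝ) < g := by nlinarith [sq_nonneg (X : ℝ)]
  have h2 : (X : ℝ) * Real.sqrt (2 * g + 1) = Real.sqrt ((X : ℝ) ^ 2 * (2 * g + 1)) := by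
    rw [Real.sqrt_mul (sq_nonneg _), Real.sqrt_sq hX]
  rw [h2, Real.sqrt_lt' hg]
  nlinarith [sq_nonneg (X : ℝ)]

/-- the logarithm is small against every power -/
theorem num_two (ε : ℝ) (hε : 0 < ε) :
    ∃ g₀ : ℕ, ∀ g ≥ g₀, 1 ≤ g ∧ 32 * (Real.logb 2 g + 2) ^ 2 < (g : ℝ) ^ (2 * ε) := by
  have h1 : (fun x : ℝ => Real.logb 2 x + 2) =o[atTop] fun x : ℝ => x ^ ε := by
    have h2 : (fun x : ℝ => Real.log x / Real.log 2) =o[atTop] fun x : ℝ => x ^ ε := by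
      have := (isLittleO_log_rpow_atTop hε).const_mul_left (Real.log 2)⁻¹
      refine this.congr_left fun x => ?_
      rw [div_eq_inv_mul]
    refine h2.add ?_
    rw [Asymptotics.isLittleO_const_left]
    right
    exact tendsto_norm_atTop_atTop.comp (tendsto_rpow_atTop hε)
  have h3 := (h1.bound (c := 1 / 7) (by norm_num)).and (eventually_ge_atTop (1 : ℝ))
  have h4 := (tendsto_natCast_atTop_atTop (R := ℝ)).eventually h3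
  obtain ⟨g₀, hg₀⟩ := eventually_atTop.1 h4
  refine ⟨g₀, fun g hg => ?_⟩
  obtain ⟨h5, h6⟩ := hg₀ g hg
  have h7 : 1 ≤ g := by exact_mod_cast h6
  refine ⟨h7, ?_⟩
  have h8 : 0 ≤ Real.logb 2 g := Real.logb_nonneg (by norm_num) h6
  have h9 : 0 < (g : ℝ) ^ ε := Real.rpow_pos_of_pos (by linarith) _
  rw [Real.norm_of_nonneg (by linarith), Real.norm_of_nonneg h9.le] at h5
  have h10 : (g : ℝ) ^ (2 * ε) = ((g : ℝ) ^ ε) ^ 2 := by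
    rw [mul_comm, Real.rpow_mul (by linarith)]
    norm_num
  rw [h10]
  nlinarith

theorem two_pow_floor_le {a : ℝ} {g : ℕ} (ha : 0 ≤ a) (hg : 1 ≤ g) :
    ((2 : ℝ) ^ ⌊a * Real.logb 2 g⌋₊) ≤ (g : ℝ) ^ a := by
  have hg' : (1 : ℝ) ≤ g := by exact_mod_cast hg
  have h8 : 0 ≤ Real.logb 2 g := Real.logb_nonneg (by norm_num) hg'
  rw [← Real.rpow_natCast]
  calc (2 : ℝ) ^ ((⌊a * Real.logb 2 g⌋₊ : ℕ) : ℝ) ≤ (2 : ℝ) ^ (a * Real.logb 2 g) :=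
        Real.rpow_le_rpow_of_exponent_le (by norm_num) (Nat.floor_le (mul_nonneg ha h8))
    _ = (g : ℝ) ^ a := by
        rw [mul_comm, Real.rpow_mul (by norm_num), Real.rpow_logb (by norm_num) (by norm_num)
          (by linarith)]

/-- degrees `g ^ (1 / 2 - δ)`, levels `(δ - ε) log₂ g` -/
theorem num_three {ε δ : ℝ} {g : ℕ} (h : 1 ≤ g ∧ 32 * (Real.logb 2 g + 2) ^ 2 < (g : ℝ) ^ (2 * ε))
    (h1 : ε ≤ δ) (h2 : δ ≤ 1 / 2) (hε : 0 < ε) :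
    2 * ((⌊(δ - ε) * Real.logb 2 g⌋₊ + 2) * 2 ^ (⌊(δ - ε) * Real.logb 2 g⌋₊ + 2) *
      ⌊(g : ℝ) ^ (1 / 2 - δ)⌋₊) ^ 2 < g := by
  obtain ⟨hg, h3⟩ := h
  have hg' : (1 : ℝ) ≤ g := by exact_mod_cast hg
  have h8 : 0 ≤ Real.logb 2 g := Real.logb_nonneg (by norm_num) hg'
  have h4 := two_pow_floor_le (a := δ - ε) (by linarith) hg
  set L := ⌊(δ - ε) * Real.logb 2 g⌋₊ with hL
  have h5 : (L : ℝ) ≤ Real.logb 2 g := by
    refine (Nat.floor_le (mul_nonneg (by linarith) h8)).trans ?_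
    nlinarith
  set k := ⌊(g : ℝ) ^ (1 / 2 - δ)⌋₊ with hk
  have h6 : (k : ℝ) ≤ (g : ℝ) ^ (1 / 2 - δ) := Nat.floor_le (by positivity)
  have h7 : ((2 : ℝ) ^ L * k) ^ 2 ≤ (g : ℝ) ^ (1 - 2 * ε) := by
    have h9 : (2 : ℝ) ^ L * k ≤ (g : ℝ) ^ (1 / 2 - ε) := by
      calc (2 : ℝ) ^ L * k ≤ (g : ℝ) ^ (δ - ε) * (g : ℝ) ^ (1 / 2 - δ) :=
            mul_le_mul h4 h6 (Nat.cast_nonneg _) (by positivity)
        _ = (g : ℝ) ^ (1 / 2 - ε) := by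
            rw [← Real.rpow_add (by linarith)]
            congr 1
            ring
    calc ((2 : ℝ) ^ L * k) ^ 2 ≤ ((g : ℝ) ^ (1 / 2 - ε)) ^ 2 :=
          pow_le_pow_left₀ (by positivity) h9 2
      _ = (g : ℝ) ^ (1 - 2 * ε) := by
          rw [← Real.rpow_natCast, ← Real.rpow_mul (by linarith)]
          congr 1
          push_cast
          ring
  have h9 : (0 : ℝ) < (g : ℝ) ^ (1 - 2 * ε) := Real.rpow_pos_of_pos (by linarith) _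
  have h10 : (g : ℝ) ^ (1 - 2 * ε) * (g : ℝ) ^ (2 * ε) = g := by
    rw [← Real.rpow_add (by linarith)]
    norm_num
  have h11 : (((L : ℝ) + 2) ^ 2) * 32 < (g : ℝ) ^ (2 * ε) := by
    have : ((L : ℝ) + 2) ^ 2 ≤ (Real.logb 2 g + 2) ^ 2 :=
      pow_le_pow_left₀ (by positivity) (by linarith) 2
    linarith
  have h12 : (2 * (((L : ℝ) + 2) * 2 ^ (L + 2) * k) ^ 2) < (g : ℝ) := by
    calc (2 * (((L : ℝ) + 2) * 2 ^ (L + 2) * k) ^ 2) =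
          ((2 : ℝ) ^ L * k) ^ 2 * ((((L : ℝ) + 2) ^ 2) * 32) := by ring
      _ ≤ (g : ℝ) ^ (1 - 2 * ε) * ((((L : ℝ) + 2) ^ 2) * 32) :=
          mul_le_mul_of_nonneg_right h7 (by positivity)
      _ < (g : ℝ) ^ (1 - 2 * ε) * (g : ℝ) ^ (2 * ε) := mul_lt_mul_of_pos_left h11 h9
      _ = g := h10
  exact_mod_cast h12

/-- all levels, degrees `(1 / 2 - ε) log₂ g` -/
theorem num_four {ε : ℝ} {g : ℕ} (h : 1 ≤ g ∧ 32 * (Real.logb 2 g + 2) ^ 2 < (g : ℝ) ^ (2 * ε))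
    (hε : 0 < ε) (hε' : ε ≤ 1 / 2) :
    2 * (⌊(1 / 2 - ε) * Real.logb 2 g⌋₊ * 2 ^ (⌊(1 / 2 - ε) * Real.logb 2 g⌋₊ + 1)) ^ 2 < g := by
  have h1 := num_three h hε' le_rfl hε
  have h2 : ⌊(g : ℝ) ^ ((1 : ℝ) / 2 - 1 / 2)⌋₊ = 1 := by
    rw [sub_self, Real.rpow_zero]
    exact Nat.floor_one
  rw [h2, mul_one] at h1
  refine lt_of_le_of_lt ?_ h1
  have h3 : ∀ m : ℕ, m * 2 ^ (m + 1) ≤ (m + 2) * 2 ^ (m + 2) := fun m =>
    Nat.mul_le_mul (by omega) (Nat.pow_le_pow_right (by norm_num) (by omega))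
  exact Nat.mul_le_mul le_rfl (Nat.pow_le_pow_left (h3 _) 2)

end Pool.Agent.K6.H54.Pal
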