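import Mathlib
import Pool.Agent.TH170.GH.Total
import Pool.Agent.X311.Cn2
import Pool.Agent.K6.H54.Pal.Level
import Pool.Agent.K6.H54.Pal.Cyc
import Pool.Agent.K6.H54.Pal.Num

/-!
# The generalized Hodge conjecture by divisors for sign functions with small correlations
-/

set_option autoImplicit false

namespace Pool.Agent.K6.H54.Pal

open NumberField Pool.Agent.H204R3.CM Pool.Agent.W546.GHC Pool.Agent.X311.CmY
  Pool.Agent.TH170.LV Pool.Agent.TH170.GH

noncomputable section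

/-- the conjugate of an embedding in a family -/
def cj {ι : Type} {E : ι → Type} [∀ i, Field (E i)] (z : Σ i, (E i →+* ℂ)) : Σ i, (E i →+* ℂ) :=
  ⟨z.1, ComplexEmbedding.conjugate z.2⟩

theorem cj_cj {ι : Type} {E : ι → Type} [∀ i, Field (E i)] (z : Σ i, (E i →+* ℂ)) :
    cj (cj z) = z := by
  obtain ⟨i, φ⟩ := z
  change (⟨i, ComplexEmbedding.conjugate (ComplexEmbedding.conjugate φ)⟩ : Σ i, (E i →+* ℂ)) = _
  have : ComplexEmbedding.conjugate (ComplexEmbedding.conjugate φ) = φ := by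
    ext x
    simp
  rw [this]

theorem separated_of_small {ι : Type} {E : ι → Type} [∀ i, Field (E i)] [∀ i, NumberField (E i)]
    [∀ i, IsCMField (E i)] [∀ i, IsGalois ℚ (E i)] (φ₀ : ∀ i, E i →+* ℂ)
    {ε : ∀ i, (E i ≃ₐ[ℚ] E i) → ℤˣ} (hε : ∀ i σ, ε i (σ * conjGal (E i)) = - ε i σ)
    (h : SmallSetsOccur (fun i => typeOf (φ₀ i) (ε i)) 2) :
    Separated (fun i => typeOf (φ₀ i) (ε i)) := by
  have hΦ : ∀ i, IsCMType (typeOf (φ₀ i) (ε i)) := fun i => isCMType_typeOf (φ₀ i) (hε i)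
  have hne : ∀ x : (Σ i, (E i →+* ℂ)), cj x ≠ x := by
    rintro ⟨i, φ⟩ hx
    have h1 : ComplexEmbedding.conjugate φ = φ := by simpa [cj] using hx
    have h2 := hΦ i φ
    rw [h1] at h2
    exact iff_not_self h2
  rintro x y hxy
  by_contra hxy'
  obtain ⟨σ, hσ⟩ := h {x, cj y} (by
      refine (Set.encard_insert_le _ _).trans ?_
      rw [Set.encard_singleton]
      norm_num) (by
    intro z hz hz'
    change cj z ∈ _ at hz'
    rcases hz with rfl | hz
    · rcases hz' with hz' | hz'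
      · exact hne _ hz'
      · apply hxy'
        have h3 := congrArg cj (Set.mem_singleton_iff.1 hz')
        rw [cj_cj, cj_cj] at h3
        exact h3
    · rw [Set.mem_singleton_iff] at hz
      rw [hz, cj_cj] at hz'
      rcases hz' with hz' | hz'
      · exact hxy' hz'.symm
      · exact hne y (Set.mem_singleton_iff.1 hz').symm)
  have h1 := hσ x (by simp)
  have h2 := hσ (cj y) (by simp)
  have h3 := (hxy σ).1 h1
  obtain ⟨i, φ⟩ := y
  obtain ⟨τ, rfl⟩ := exists_gal (φ₀ i) φ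
  change (σ : ℂ →+* ℂ).comp (ComplexEmbedding.conjugate (emb (φ₀ i) τ)) ∈
    typeOf (φ₀ i) (ε i) at h2
  change (σ : ℂ →+* ℂ).comp (emb (φ₀ i) τ) ∈ typeOf (φ₀ i) (ε i) at h3
  rw [conj_emb] at h2
  obtain ⟨g, hg⟩ := exists_gal (φ₀ i) ((σ : ℂ →+* ℂ).comp (φ₀ i))
  rw [comp_emb φ₀ hg, mem_typeOf] at h2 h3
  rw [← mul_assoc, hε, h3] at h2
  exact absurd h2 (by decide)

/-- a direct bound -/
theorem card_gal_eq {E : Type} [Field E] [NumberField E] [IsGalois ℚ E] {A : Type} [Group A]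
    [Fintype A] (e : (E ≃ₐ[ℚ] E) ≃* ℤˣ × A) :
    Fintype.card (E ≃ₐ[ℚ] E) = 2 * Fintype.card A := by
  rw [Fintype.card_congr e.toEquiv, Fintype.card_prod]
  simp

theorem finrank_eq {E : Type} [Field E] [NumberField E] [IsGalois ℚ E] {A : Type} [Group A]
    [Fintype A] (e : (E ≃ₐ[ℚ] E) ≃* ℤˣ × A) :
    Module.finrank ℚ E = 2 * Fintype.card A := by
  rw [← card_gal_eq e, ← IsGalois.card_aut_eq_finrank, Nat.card_eq_fintype_card]

section fam

variable {ι : Type} [Fintype ι] {E : ι → Type} [∀ i, Field (E i)] [∀ i, NumberField (E i)]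
  [∀ i, IsCMField (E i)] [∀ i, IsGalois ℚ (E i)] {A : ι → Type} [∀ i, Group (A i)]
  [∀ i, Fintype (A i)] {η : ∀ i, A i → ℤˣ} (e : ∀ i, (E i ≃ₐ[ℚ] E i) ≃* ℤˣ × A i)
  (he : ∀ i, e i (conjGal (E i)) = (-1, 1)) (φ₀ : ∀ i, E i →+* ℂ)

omit [Fintype ι] [∀ i, IsGalois ℚ (E i)] [∀ i, Fintype (A i)] in
include he in
theorem sign_conj (i : ι) (σ : E i ≃ₐ[ℚ] E i) :
    (e i (σ * conjGal (E i))).1 * η i (e i (σ * conjGal (E i))).2 =
      - ((e i σ).1 * η i (e i σ).2) := by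
  rw [map_mul, he]
  simp

include he

omit [Fintype ι] [∀ i, IsGalois ℚ (E i)] he in
theorem delta_nonneg {i : ι} {r : ℕ} (hr : 1 ≤ r) {Δ : ℝ} (h : CorrA (η i) r Δ) : 0 ≤ Δ := by
  classical
  exact (abs_nonneg _).trans (h {1} (by simp) (by simpa using hr))

theorem family_level {K : Subfield ℂ} (hK : Independent K E) {k L : ℕ} {Δ : ι → ℝ}
    (hC : ∀ i, CorrA (η i) (L + 2) (Δ i))
    (hlt : ∀ i, (2 : ℝ) ^ (L + 1) * k * Δ i < Fintype.card (A i)) :
    LevelFree (fun i => typeOf (φ₀ i) (fun σ => (e i σ).1 * η i (e i σ).2)) k L := by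
  refine levelFree_of_corr φ₀ hK (Δ := fun i => 2 * Δ i) (fun i => ?_)
    (fun i => corr_of_corrA (hC i) (e i) (he i)) (fun i => ?_)
  · have := delta_nonneg (A := A) (η := η) (i := i) (by omega) (hC i)
    linarith
  · rw [card_gal_eq (e i)]
    push_cast
    have := hlt i
    linarith

omit [Fintype ι] in
theorem family_occurs {K : Subfield ℂ} (hK : Independent K E) {s : ℕ} {Δ : ι → ℝ}
    (hΔ : ∀ i, 0 ≤ Δ i) (hC : ∀ i, CorrA (η i) s (Δ i))
    (hlt : ∀ i, (2 : ℝ) ^ s * Δ i < Fintype.card (A i)) :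
    SmallSetsOccurOver K (fun i => typeOf (φ₀ i) (fun σ => (e i σ).1 * η i (e i σ).2)) s := by
  refine occursOver_of_corr φ₀ hK (Δ := fun i => 2 * Δ i) (fun i => ?_)
    (fun i => corr_of_corrA (hC i) (e i) (he i)) (fun i => ?_)
  · have := hΔ i
    linarith
  · rw [card_gal_eq (e i)]
    push_cast
    have := hlt i
    linarith

end fam

end

end Pool.Agent.K6.H54.Pal
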